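import Mathlib

namespace Pool.Agent.Results.MP_c1403d_pr.Sinh

open Finset Polynomial

/-- the reduction `R[j,k,l]`, as a rational combination of the symbols `[i,0,l']` -/
noncomputable def R : ℕ → ℕ → ℕ → (ℕ × ℕ →₀ ℚ)
  | j, 0, l => Finsupp.single (j, l) 1
  | j, 1, l => ((j : ℚ) / ((l : ℚ) - 1)) • R (j - 1) 0 (l - 1)
  | j, k + 2, l => ((j : ℚ) / ((l : ℚ) - 1)) • R (j - 1) (k + 1) (l - 1) +
      (((k : ℚ) + 1) / ((l : ℚ) - 1)) • R (j + 1) k (l - 2)

theorem R_val (k : ℕ) : ∀ j i : ℕ, 2 * j + k ≤ 2 * i →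
    R j k (k + 2) (i, 2) = if 2 * j + k = 2 * i then 1 / ((k : ℚ) + 1) else 0 := by
  induction k using Nat.twoStepInduction with
  | zero =>
    intro j i _
    rw [R, Finsupp.single_apply]
    by_cases h : j = i
    · simp [h]
    · rw [if_neg (by simpa using h), if_neg (by omega)]
  | one =>
    intro j i h
    rw [R, R, Finsupp.smul_apply, Finsupp.single_apply, if_neg (by simp; omega), if_neg (by omega)]
    simp
  | more k ih1 ih2 =>
    intro j i h
    rw [R, Finsupp.add_apply, Finsupp.smul_apply, Finsupp.smul_apply,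
      show k + 2 + 2 - 1 = k + 1 + 2 by omega, show k + 2 + 2 - 2 = k + 2 by omega,
      ih1 (j + 1) i (by omega)]
    have e : ((j : ℚ) / (((k + 2 + 2 : ℕ) : ℚ) - 1)) • R (j - 1) (k + 1) (k + 1 + 2) (i, 2) = 0 := by
      rcases Nat.eq_zero_or_pos j with rfl | hj
      · simp
      · rw [ih2 (j - 1) i (by omega), if_neg (by omega), smul_zero]
    rw [e, zero_add]
    by_cases h' : 2 * j + (k + 2) = 2 * i
    · rw [if_pos (by omega), if_pos h', smul_eq_mul]
      push_cast
      have : (k : ℚ) + 2 + 2 - 1 = k + 2 + 1 := by ring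
      rw [this]
      field_simp
    · rw [if_neg (by omega), if_neg h', smul_zero]

/-- coefficients, by recursion -/
def cc : ℕ → ℕ → ℕ → ℚ
  | 0, j, k => if j = 0 ∧ k = 0 then 1 else 0
  | n + 1, j, k => (j + 1) * cc n (j + 1) k + (if j = 0 then 0 else (k + 1) * cc n (j - 1) (k + 1)) -
      (if k = 0 then 0 else k * cc n j (k - 1))

theorem cc_zero (n : ℕ) : ∀ j k, n < 2 * j + k → cc n j k = 0 := by
  induction n with
  | zero => intro j k h; rw [cc, if_neg (by omega)]
  | succ n ih =>
    intro j k h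
    rw [cc, ih _ _ (by omega)]
    split_ifs with h1 h2 h2
    · simp
    · rw [ih _ _ (by omega)]; simp
    · rw [ih _ _ (by omega)]; simp
    · rw [ih _ _ (by omega), ih _ _ (by omega)]; simp

noncomputable def T (f : ℚ[X]) : ℚ[X] := (1 - X ^ 2) * derivative f - X * f

noncomputable def Q : ℕ → ℚ[X]
  | 0 => 1
  | n + 1 => T (Q n)

theorem T_coeff (f : ℚ[X]) (k : ℕ) : (T f).coeff k =
    (k + 1) * f.coeff (k + 1) - if k = 0 then 0 else k * f.coeff (k - 1) := by
  rw [T, sub_mul, one_mul, coeff_sub, coeff_sub, coeff_derivative]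
  rcases k with _ | _ | k
  · simp [pow_two, mul_assoc]
  · simp [pow_two, mul_assoc]; ring
  · rw [coeff_X_pow_mul, coeff_X_mul, coeff_derivative, if_neg (by omega)]
    simp only [Nat.add_sub_cancel]
    push_cast
    ring

theorem Q_coeff (n : ℕ) : ∀ k, (Q n).coeff k =
    if k ≤ n ∧ (n - k) % 2 = 0 then cc n ((n - k) / 2) k else 0 := by
  induction n with
  | zero =>
    intro k
    rw [Q, coeff_one]
    by_cases h : k = 0
    · simp [h, cc]
    · rw [if_neg h, if_neg (by omega)]
  | succ n ih =>
    intro k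
    rw [Q, T_coeff, ih, ih]
    by_cases h : k ≤ n + 1 ∧ (n + 1 - k) % 2 = 0
    · rw [if_pos h, cc, cc_zero n _ k (by omega), mul_zero, zero_add]
      congr 1
      · by_cases h1 : (n + 1 - k) / 2 = 0
        · rw [if_pos h1, if_neg (by omega), mul_zero]
        · rw [if_neg h1, if_pos (by omega), show (n - (k + 1)) / 2 = (n + 1 - k) / 2 - 1 by omega]
      · by_cases h1 : k = 0
        · rw [if_pos h1, if_pos h1]
        · rw [if_neg h1, if_neg h1, if_pos (by omega), show n - (k - 1) = n + 1 - k by omega]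
    · rw [if_neg h, if_neg (by omega), mul_zero]
      by_cases h1 : k = 0
      · rw [if_pos h1, sub_zero]
      · rw [if_neg h1, if_neg (by omega), mul_zero, sub_zero]

noncomputable def L : ℚ[X] →ₗ[ℚ] ℚ :=
  Polynomial.lsum fun k => LinearMap.id.smulRight (if k % 2 = 0 then 1 / ((k : ℚ) + 1) else 0)

theorem L_mono (k : ℕ) (a : ℚ) :
    L (monomial k a) = a * if k % 2 = 0 then 1 / ((k : ℚ) + 1) else 0 := by
  simp only [L, lsum_apply]
  rw [sum_monomial_index] <;> simp

theorem L_deriv (g : ℚ[X]) : L (derivative g) = (g.eval 1 - g.eval (-1)) / 2 := by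
  induction g using Polynomial.induction_on' with
  | add p q hp hq => simp only [map_add, hp, hq, eval_add]; ring
  | monomial k a =>
    rw [derivative_monomial, L_mono, eval_monomial, eval_monomial]
    rcases k with _ | k
    · simp
    · simp only [Nat.add_sub_cancel]
      rcases Nat.even_or_odd k with h | h
      · rw [if_pos (Nat.even_iff.1 h), Odd.neg_one_pow h.add_one]
        push_cast
        field_simp
        ring
      · rw [if_neg (by rw [Nat.odd_iff] at h; omega), Even.neg_one_pow h.add_one]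
        simp

noncomputable def S (e n : ℕ) : ℚ[X] :=
  ∑ p ∈ antidiagonal n, (n.choose p.1 : ℚ[X]) * if (p.2 + e) % 2 = 0 then Q p.1 else 0

theorem T_sum (s : Finset (ℕ × ℕ)) (f : ℕ × ℕ → ℚ[X]) : T (∑ p ∈ s, f p) = ∑ p ∈ s, T (f p) := by
  simp only [T, derivative_sum, mul_sum, sum_sub_distrib]

theorem S_succ (e n : ℕ) : S e (n + 1) = S (e + 1) n + T (S e n) := by
  rw [S, sum_antidiagonal_choose_succ_mul (fun i j => if (j + e) % 2 = 0 then Q i else 0), S, S,
    T_sum]
  congr 1
  · exact sum_congr rfl fun p _ => by rw [show p.2 + 1 + e = p.2 + (e + 1) by ring]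
  · refine sum_congr rfl fun p hp => ?_
    rw [Nat.choose_symm_of_eq_add (mem_antidiagonal.1 hp).symm]
    split_ifs
    · simp only [Q, T, derivative_mul, derivative_natCast]; ring
    · simp [T]

theorem S_two (n : ℕ) : S (1 + 1) n = S 0 n :=
  sum_congr rfl fun p _ => by simp only [show (p.2 + (1 + 1)) % 2 = (p.2 + 0) % 2 by omega]

theorem Phi (n : ℕ) : S 0 n + X * S 1 n = if n = 0 then 1 else 0 := by
  induction n with
  | zero => simp [S, Q]
  | succ n ih =>
    have h : derivative (S 0 n + X * S 1 n) = 0 := by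
      rw [ih]; split_ifs <;> simp
    rw [S_succ, S_succ, S_two, if_neg (by omega), zero_add, T, T]
    simp only [derivative_add, derivative_mul, derivative_X] at h
    linear_combination (1 - X ^ 2) * h

theorem L_S (n : ℕ) : L (S 1 n) = if n = 1 then 1 else 0 := by
  rcases n with _ | n
  · simp [S]
  · have h : S 1 (n + 1) = (if n = 0 then 1 else 0) + derivative ((1 - X ^ 2) * S 1 n) := by
      rw [S_succ, S_two, ← Phi, T]
      simp only [derivative_mul, derivative_sub, derivative_one, derivative_X_sq, map_ofNat]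
      ring
    rw [h, map_add, L_deriv]
    have : L 1 = 1 := by rw [← monomial_zero_one, L_mono]; simp
    by_cases hn : n = 0 <;> simp [hn, this]

theorem L_Q (n : ℕ) : L (Q n) = if Even n then
    ∑ p ∈ range (n + 1) ×ˢ range (n + 1), cc n p.1 p.2 * R p.1 p.2 (p.2 + 2) (n / 2, 2) else 0 := by
  have hd : (Q n).natDegree < n + 1 := by
    refine Nat.lt_succ_of_le (natDegree_le_iff_coeff_eq_zero.2 fun k hk => ?_)
    rw [Q_coeff, if_neg (by omega)]
  rw [(Q n).as_sum_range' _ hd, map_sum]
  simp only [L_mono, Q_coeff]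
  split_ifs with hn
  · rw [sum_product_right]
    refine sum_congr rfl fun k hk => ?_
    rw [Nat.even_iff] at hn
    have hk' := mem_range.1 hk
    have : ∀ j ∈ range (n + 1), cc n j k * R j k (k + 2) (n / 2, 2) =
        if j = (n - k) / 2 then (if k % 2 = 0 then cc n j k * (1 / ((k : ℚ) + 1)) else 0)
        else 0 := fun j _ => by
      by_cases h : n < 2 * j + k
      · rw [cc_zero n j k h]; simp
      · rw [R_val k j _ (by omega)]
        by_cases h1 : 2 * j + k = 2 * (n / 2)
        · rw [if_pos h1, if_pos (by omega), if_pos (by omega)]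
        · rw [if_neg h1, mul_zero]
          split_ifs <;> first | rfl | omega
    rw [sum_congr rfl this, sum_ite_eq' , if_pos (mem_range.2 (by omega))]
    by_cases h2 : k % 2 = 0
    · rw [if_pos h2, if_pos h2, if_pos (by omega)]
    · rw [if_neg h2, if_neg h2, mul_zero]
  · refine sum_eq_zero fun k _ => ?_
    rw [Nat.even_iff] at hn
    split_ifs <;> first | omega | simp

noncomputable def δ : (ℕ × ℕ →₀ ℚ) →ₗ[ℚ] (ℕ × ℕ →₀ ℚ) :=
  Finsupp.linearCombination ℚ fun p => Finsupp.single (p.1 - 1, p.2) (p.1 : ℚ) +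
    Finsupp.single (p.1 + 1, p.2 - 1) (p.2 : ℚ) - Finsupp.single (p.1, p.2 + 1) ((p.2 : ℚ) + 1)

theorem δ_apply (f : ℕ × ℕ →₀ ℚ) (j k : ℕ) : δ f (j, k) = (j + 1) * f (j + 1, k) +
    (if j = 0 then 0 else (k + 1) * f (j - 1, k + 1)) -
      (if k = 0 then 0 else k * f (j, k - 1)) := by
  induction f using Finsupp.induction_linear with
  | zero => simp
  | add f g hf hg =>
    simp only [map_add, Finsupp.add_apply, hf, hg]
    split_ifs <;> ring
  | single p r =>
    obtain ⟨a, b⟩ := p
    simp only [δ, Finsupp.linearCombination_single, Finsupp.smul_apply, Finsupp.sub_apply,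
      Finsupp.add_apply, Finsupp.single_apply, Prod.mk.injEq, smul_eq_mul, mul_sub, mul_add]
    congr 1
    · congr 1
      · by_cases h : a = j + 1 ∧ b = k
        · rw [if_pos h, if_pos (by omega), h.1]; push_cast; ring
        · rw [if_neg h]
          split_ifs with h1
          · rw [show a = 0 by omega]; simp
          · simp
      · by_cases h : a + 1 = j ∧ b = k + 1
        · rw [if_pos (by omega), if_neg (by omega), if_pos (by omega), h.2]; push_cast; ring
        · by_cases h1 : a + 1 = j ∧ b - 1 = k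
          · rw [if_pos h1, if_neg (by omega), if_neg (by omega), show b = 0 by omega]; simp
          · rw [if_neg h1]
            split_ifs <;> first | omega | simp
    · by_cases h : a = j ∧ b + 1 = k
      · rw [if_pos h, if_neg (by omega), if_pos (by omega), ← h.2]; push_cast; ring
      · rw [if_neg h]
        split_ifs <;> first | omega | simp

theorem δ_iter (n : ℕ) : ∀ j k, (δ^[n] (Finsupp.single (0, 0) 1)) (j, k) = cc n j k := by
  induction n with
  | zero => intro j k; simp [cc, Finsupp.single_apply, eq_comm]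
  | succ n ih => intro j k; rw [Function.iterate_succ_apply', δ_apply, cc, ih, ih, ih]

theorem expand {A : Type} [CommRing A] [Algebra ℚ A] (D : Derivation ℚ A A) (z b : A) (a : Aˣ)
    (hz : D z = 1) (ha : D a = b) (hb : D b = z * a) (n : ℕ) :
    D^[n] (a⁻¹ : Aˣ) = Finsupp.linearCombination ℚ
      (fun p : ℕ × ℕ => z ^ p.1 * b ^ p.2 * ((a⁻¹ : Aˣ) : A) ^ (p.2 + 1))
      (δ^[n] (Finsupp.single (0, 0) 1)) := by
  obtain ⟨w, hw⟩ : ∃ w : A, w = ((a⁻¹ : Aˣ) : A) := ⟨_, rfl⟩
  have haw : (a : A) * w = 1 := by simp [hw]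
  have hD : D w = -(b * w ^ 2) := by
    have h := congrArg D haw
    rw [Derivation.leibniz, ha, D.map_one_eq_zero, smul_eq_mul, smul_eq_mul] at h
    linear_combination w * h - D w * haw
  rw [← hw]
  induction n with
  | zero => simp
  | succ n ih =>
    rw [Function.iterate_succ_apply', Function.iterate_succ_apply', ih]
    generalize δ^[n] (Finsupp.single (0, 0) 1) = f
    induction f using Finsupp.induction_linear with
    | zero => simp
    | add f g hf hg => simp only [map_add, hf, hg]
    | single p r =>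
      obtain ⟨j, k⟩ := p
      simp only [δ, Finsupp.linearCombination_single, map_smul, map_add, map_sub,
        Derivation.map_smul]
      congr 1
      simp only [Derivation.leibniz, Derivation.leibniz_pow, hz, hb, hD, smul_eq_mul,
        nsmul_eq_mul, Algebra.smul_def, map_add, map_natCast, map_one, Nat.add_sub_cancel,
        Algebra.algebraMap_self, RingHom.id_apply]
      rcases k with _ | k
      · simp; ring
      · simp only [Nat.add_sub_cancel]
        push_cast
        linear_combination ((k + 1) * z ^ (j + 1) * b ^ k * w ^ (k + 1)) * haw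

theorem result {A : Type} [CommRing A] [Algebra ℚ A] (D : Derivation ℚ A A) (z b : A) (a : Aˣ)
    (hz : D z = 1) (ha : D a = b) (hb : D b = z * a)
    (hli : LinearIndependent ℚ fun p : ℕ × ℕ => z ^ p.1 * b ^ p.2 * ((a⁻¹ : Aˣ) : A) ^ (p.2 + 2))
    (c : ℕ → ℕ × ℕ →₀ ℚ)
    (hc : ∀ n, ((a⁻¹ : Aˣ) : A) * D^[n] (a⁻¹ : Aˣ) =
      (c n).sum fun p r => r • (z ^ p.1 * b ^ p.2 * ((a⁻¹ : Aˣ) : A) ^ (p.2 + 2))) :
    (PowerSeries.mk fun n => if Even n then
        ((c n).sum fun p r => r • R p.1 p.2 (p.2 + 2)) (n / 2, 2) / (n.factorial : ℚ) else 0) *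
      (PowerSeries.mk fun n => if Even n then 0 else 1 / (n.factorial : ℚ)) = PowerSeries.X := by
  have h1 : ∀ n, c n = δ^[n] (Finsupp.single (0, 0) 1) := fun n => by
    apply hli
    rw [Finsupp.linearCombination_apply, ← hc, expand D z b a hz ha hb,
      Finsupp.linearCombination_apply, Finsupp.linearCombination_apply, Finsupp.mul_sum]
    exact Finsupp.sum_congr fun p _ => by rw [mul_smul_comm]; congr 1; ring
  have h2 : ∀ n, (if Even n then ((c n).sum fun p r => r • R p.1 p.2 (p.2 + 2)) (n / 2, 2) /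
      (n.factorial : ℚ) else 0) = L (Q n) / n.factorial := fun n => by
    rw [L_Q]
    split_ifs
    · congr 1
      rw [Finsupp.sum_of_support_subset (s := range (n + 1) ×ˢ range (n + 1)) _ _ _ (by simp),
        Finsupp.finsetSum_apply]
      · exact sum_congr rfl fun p _ => by rw [Finsupp.smul_apply, h1, δ_iter, smul_eq_mul]
      · rintro ⟨j, k⟩ hp
        rw [Finsupp.mem_support_iff, h1, δ_iter] at hp
        have : ¬ n < 2 * j + k := fun h => hp (cc_zero n j k h)
        simp only [mem_product, mem_range]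
        omega
    · simp
  ext n
  simp only [h2, PowerSeries.coeff_mul, PowerSeries.coeff_mk, PowerSeries.coeff_X]
  have h3 := L_S n
  rw [S, map_sum] at h3
  have h4 : ∑ p ∈ antidiagonal n, L (Q p.1) / p.1.factorial *
      (if Even p.2 then 0 else 1 / (p.2.factorial : ℚ)) = (if n = 1 then 1 else 0) / n.factorial := by
    rw [← h3, sum_div]
    refine sum_congr rfl fun p hp => ?_
    rw [← nsmul_eq_mul, map_nsmul, nsmul_eq_mul, ← mem_antidiagonal.1 hp, Nat.cast_add_choose]
    by_cases h : Even p.2
    · rw [if_pos h, if_neg (by rw [Nat.even_iff] at h; omega)]; simp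
    · rw [if_neg h, if_pos (by rw [Nat.even_iff] at h; omega)]; field_simp
  rw [h4]
  split_ifs with h
  · simp [h]
  · simp

end Pool.Agent.Results.MP_c1403d_pr.Sinh
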